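import Pool.Agent.MWK.StmtsN

/-! Squad MWK, row NEC (helper76) -/

set_option autoImplicit false

namespace Pool.Agent.MWK.H76

open Pool.Agent.Helper14_MV Pool.Agent.Helper2_MV
open Pool.Agent.MWF (Ap gaml RR_gaml)

theorem pc_tail (a : List ℕ) :
    PC (0 :: 1 :: 2 :: a) ↔ (∀ c ∈ a, c = 0 ∨ c = 1) ∧ 0 ∈ a ∧ 1 ∈ a := by
  constructor
  · rintro ⟨m, h, h1, h2, h3⟩
    have e : a = m := by
      injection h with _ h
      injection h with _ h
      injection h
    subst e
    exact ⟨h1, h2, h3⟩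
  · rintro ⟨h1, h2, h3⟩
    exact ⟨a, rfl, h1, h2, h3⟩

theorem pc_mem {a b : List ℕ} (h : ∀ c, c ∈ a ↔ c ∈ b) :
    PC (0 :: 1 :: 2 :: a) ↔ PC (0 :: 1 :: 2 :: b) := by
  rw [pc_tail, pc_tail, h 0, h 1]
  constructor
  · rintro ⟨h1, h2⟩
    exact ⟨fun c hc => h1 c ((h c).2 hc), h2⟩
  · rintro ⟨h1, h2⟩
    exact ⟨fun c hc => h1 c ((h c).1 hc), h2⟩

theorem key (u X r : List ℕ) (hX : X ≠ []) (hu : ∀ x ∈ X, x ∈ u) (h : PC (u ++ X ++ r)) :
    ∃ s, u = 0 :: 1 :: 2 :: s := by
  obtain ⟨m, hm, -, -, -⟩ := h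
  match X, hX with
  | x :: X', _ =>
    have hx : x ∈ u := hu x List.mem_cons_self
    match u with
    | [] => exact absurd hx List.not_mem_nil
    | [a] =>
      simp only [List.cons_append, List.nil_append, List.cons.injEq] at hm
      rw [List.mem_singleton] at hx
      omega
    | [a, b] =>
      simp only [List.cons_append, List.nil_append, List.cons.injEq] at hm
      simp only [List.mem_cons, List.not_mem_nil, or_false] at hx
      omega
    | a :: b :: c :: s =>
      simp only [List.cons_append, List.cons.injEq] at hm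
      obtain ⟨h1, h2, h3, -⟩ := hm
      subst h1 h2 h3
      exact ⟨s, rfl⟩

theorem nec : NecStmt := by
  constructor
  · refine RR_gaml fun f p q => ?_
    have e1 : p ++ [0, 0, 1].flatMap f ++ q = (p ++ f 0) ++ f 0 ++ (f 1 ++ q) := by
      simp [List.flatMap_cons]
    have e2 : p ++ [0, 0, 1, 0].flatMap f ++ q = (p ++ f 0) ++ f 0 ++ (f 1 ++ f 0 ++ q) := by
      simp [List.flatMap_cons]
    rw [e1, e2]
    by_cases hX : f 0 = []
    · rw [hX, List.append_nil, List.append_nil, List.append_nil]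
    · have hk : ∀ r, PC ((p ++ f 0) ++ f 0 ++ r) → ∃ s, p ++ f 0 = 0 :: 1 :: 2 :: s := fun r =>
        key (p ++ f 0) (f 0) r hX fun x hx => List.mem_append_right _ hx
      have hm : (∃ s, p ++ f 0 = 0 :: 1 :: 2 :: s) →
          (PC ((p ++ f 0) ++ f 0 ++ (f 1 ++ q)) ↔ PC ((p ++ f 0) ++ f 0 ++ (f 1 ++ f 0 ++ q))) := by
        rintro ⟨s, hs⟩
        rw [hs]
        simp only [List.cons_append]
        refine pc_mem fun c => ?_
        simp only [List.mem_append]
        tauto
      constructor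
      · intro h
        exact (hm (hk _ h)).1 h
      · intro h
        exact (hm (hk _ h)).2 h
  · refine RR_gaml fun f p q => ?_
    have e1 : p ++ [0, 1, 0].flatMap f ++ q = (p ++ f 0 ++ f 1) ++ f 0 ++ q := by
      simp [List.flatMap_cons]
    have e2 : p ++ [0, 1, 0, 0].flatMap f ++ q = (p ++ f 0 ++ f 1) ++ f 0 ++ (f 0 ++ q) := by
      simp [List.flatMap_cons]
    rw [e1, e2]
    by_cases hX : f 0 = []
    · rw [hX, List.nil_append, List.append_nil]
    · have hk : ∀ r, PC ((p ++ f 0 ++ f 1) ++ f 0 ++ r) → ∃ s, p ++ f 0 ++ f 1 = 0 :: 1 :: 2 :: s :=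
        fun r => key (p ++ f 0 ++ f 1) (f 0) r hX fun x hx =>
          List.mem_append_left _ (List.mem_append_right _ hx)
      have hm : (∃ s, p ++ f 0 ++ f 1 = 0 :: 1 :: 2 :: s) →
          (PC ((p ++ f 0 ++ f 1) ++ f 0 ++ q) ↔ PC ((p ++ f 0 ++ f 1) ++ f 0 ++ (f 0 ++ q))) := by
        rintro ⟨s, hs⟩
        rw [hs]
        simp only [List.cons_append]
        refine pc_mem fun c => ?_
        simp only [List.mem_append]
        tauto
      constructor
      · intro h
        exact (hm (hk _ h)).1 h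
      · intro h
        exact (hm (hk _ h)).2 h

end Pool.Agent.MWK.H76
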